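import Pool.Agent.H79.QN.Stmts3
import Pool.Agent.H70.QN.SCH

/-!
# Row `CLJ` of the board `qn`: Schur test and classes on an interval
-/

set_option autoImplicit false

namespace Pool.Agent.H79.QN

open Finset MeasureTheory

theorem clj_ker_conj (φ : ℝ → ℝ) {a b : ℝ} (hab : a ≤ b) (u k : ℤ) :
    kerJ φ a b (-u) (-k) = (starRingEnd ℂ) (kerJ φ a b u k) := by
  unfold kerJ
  rw [intervalIntegral.integral_of_le hab, intervalIntegral.integral_of_le hab, ← integral_conj]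
  congr 1
  funext x
  show e (((-u : ℤ) : ℝ) * x + ((-k : ℤ) : ℝ) * φ x) = (starRingEnd ℂ) (e (u * x + k * φ x))
  rw [sch_e_conj]
  congr 1
  push_cast
  ring

theorem clj_ker_symm (φ : ℝ → ℝ) {a b : ℝ} (hab : a ≤ b) (z z' : ℤ × ℤ) :
    ‖kerJ φ a b (sz z - sz z') (mz z - mz z')‖ = ‖kerJ φ a b (sz z' - sz z) (mz z' - mz z)‖ := by
  have h := clj_ker_conj φ hab (sz z' - sz z) (mz z' - mz z)
  rw [neg_sub, neg_sub] at h
  rw [h, Complex.norm_conj]

theorem clj_sch (φ : ℝ → ℝ) {a b : ℝ} (hab : a ≤ b) (Z : Finset (ℤ × ℤ)) (c : ℤ × ℤ → ℂ) (R : ℝ)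
    (hφ : Continuous φ)
    (hrow : ∀ z ∈ Z, ∑ z' ∈ Z, ‖kerJ φ a b (sz z - sz z') (mz z - mz z')‖ ≤ R) :
    ∫ x in a..b, ‖∑ z ∈ Z, c z * ph φ z x‖ ^ 2 ≤ R * ∑ z ∈ Z, ‖c z‖ ^ 2 := by
  have hint : ((∫ x in a..b, ‖∑ z ∈ Z, c z * ph φ z x‖ ^ 2 : ℝ) : ℂ) =
      ∑ z ∈ Z, ∑ z' ∈ Z, c z * (starRingEnd ℂ) (c z') *
        kerJ φ a b (sz z - sz z') (mz z - mz z') := by
    rw [← intervalIntegral.integral_ofReal]
    have h1 : ∀ x : ℝ, (((‖∑ z ∈ Z, c z * ph φ z x‖ ^ 2 : ℝ)) : ℂ) =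
        ∑ z ∈ Z, ∑ z' ∈ Z, c z * (starRingEnd ℂ) (c z') *
          (ph φ z x * (starRingEnd ℂ) (ph φ z' x)) := by
      intro x
      rw [Complex.ofReal_pow, ← Complex.mul_conj', map_sum, Finset.sum_mul_sum]
      refine Finset.sum_congr rfl (fun z _ => Finset.sum_congr rfl (fun z' _ => ?_))
      rw [map_mul]
      ring
    simp_rw [h1]
    have hc := sch_ph_cont φ hφ
    rw [intervalIntegral.integral_finsetSum]
    · refine Finset.sum_congr rfl (fun z _ => ?_)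
      rw [intervalIntegral.integral_finsetSum]
      · refine Finset.sum_congr rfl (fun z' _ => ?_)
        rw [intervalIntegral.integral_const_mul]
        congr 1
        unfold kerJ
        apply intervalIntegral.integral_congr
        intro x _
        exact sch_ph_mul φ z z' x
      · intro z' _
        apply Continuous.intervalIntegrable
        exact continuous_const.mul ((hc z).mul (Complex.continuous_conj.comp (hc z')))
    · intro z _
      apply Continuous.intervalIntegrable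
      exact continuous_finsetSum _ (fun z' _ =>
        continuous_const.mul ((hc z).mul (Complex.continuous_conj.comp (hc z'))))
  have hnn : 0 ≤ ∫ x in a..b, ‖∑ z ∈ Z, c z * ph φ z x‖ ^ 2 := by
    apply intervalIntegral.integral_nonneg hab
    intro x _
    positivity
  have h2 : ∫ x in a..b, ‖∑ z ∈ Z, c z * ph φ z x‖ ^ 2 =
      ‖∑ z ∈ Z, ∑ z' ∈ Z, c z * (starRingEnd ℂ) (c z') *
        kerJ φ a b (sz z - sz z') (mz z - mz z')‖ := by
    rw [← hint, Complex.norm_real, Real.norm_of_nonneg hnn]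
  rw [h2]
  have hsymm : ∑ z ∈ Z, ∑ z' ∈ Z, ‖c z'‖ ^ 2 * ‖kerJ φ a b (sz z - sz z') (mz z - mz z')‖ =
      ∑ z ∈ Z, ∑ z' ∈ Z, ‖c z‖ ^ 2 * ‖kerJ φ a b (sz z - sz z') (mz z - mz z')‖ := by
    rw [Finset.sum_comm]
    refine Finset.sum_congr rfl (fun z _ => Finset.sum_congr rfl (fun z' _ => ?_))
    rw [clj_ker_symm φ hab]
  calc ‖∑ z ∈ Z, ∑ z' ∈ Z, c z * (starRingEnd ℂ) (c z') *
        kerJ φ a b (sz z - sz z') (mz z - mz z')‖
      ≤ ∑ z ∈ Z, ∑ z' ∈ Z, ‖c z * (starRingEnd ℂ) (c z') *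
        kerJ φ a b (sz z - sz z') (mz z - mz z')‖ :=
        (norm_sum_le _ _).trans (Finset.sum_le_sum (fun z _ => norm_sum_le _ _))
    _ ≤ ∑ z ∈ Z, ∑ z' ∈ Z, (‖c z‖ ^ 2 * ‖kerJ φ a b (sz z - sz z') (mz z - mz z')‖ +
          ‖c z'‖ ^ 2 * ‖kerJ φ a b (sz z - sz z') (mz z - mz z')‖) / 2 := by
        refine Finset.sum_le_sum (fun z _ => Finset.sum_le_sum (fun z' _ => ?_))
        rw [norm_mul, norm_mul, Complex.norm_conj]
        nlinarith [mul_nonneg (sq_nonneg (‖c z‖ - ‖c z'‖))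
          (norm_nonneg (kerJ φ a b (sz z - sz z') (mz z - mz z')))]
    _ = ∑ z ∈ Z, ∑ z' ∈ Z, ‖c z‖ ^ 2 * ‖kerJ φ a b (sz z - sz z') (mz z - mz z')‖ := by
        simp_rw [← Finset.sum_div, Finset.sum_add_distrib]
        rw [hsymm]
        ring
    _ = ∑ z ∈ Z, ‖c z‖ ^ 2 * ∑ z' ∈ Z, ‖kerJ φ a b (sz z - sz z') (mz z - mz z')‖ := by
        simp_rw [Finset.mul_sum]
    _ ≤ ∑ z ∈ Z, ‖c z‖ ^ 2 * R :=
        Finset.sum_le_sum (fun z hz => mul_le_mul_of_nonneg_left (hrow z hz) (by positivity))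
    _ = R * ∑ z ∈ Z, ‖c z‖ ^ 2 := by
        rw [← Finset.sum_mul, mul_comm]

theorem clj : S_CLJ := by
  intro ι _ φ a b Z c R cl hab hφ hR hrow
  set T : Finset ι := Z.image cl with hT
  have hc := sch_ph_cont φ hφ
  have hcont : ∀ t : ι, Continuous fun x => ‖∑ z ∈ Z with cl z = t, c z * ph φ z x‖ ^ 2 := by
    intro t
    exact ((continuous_finsetSum _ (fun z _ => continuous_const.mul (hc z))).norm).pow 2
  have hpt : ∀ x : ℝ, ‖∑ z ∈ Z, c z * ph φ z x‖ ^ 2 ≤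
      ∑ t ∈ T, (T.card : ℝ) * ‖∑ z ∈ Z with cl z = t, c z * ph φ z x‖ ^ 2 := by
    intro x
    have h1 : ∑ z ∈ Z, c z * ph φ z x = ∑ t ∈ T, ∑ z ∈ Z with cl z = t, c z * ph φ z x :=
      (Finset.sum_fiberwise_of_maps_to (fun z hz => Finset.mem_image_of_mem _ hz) _).symm
    rw [h1, ← Finset.mul_sum]
    calc ‖∑ t ∈ T, ∑ z ∈ Z with cl z = t, c z * ph φ z x‖ ^ 2
        ≤ (∑ t ∈ T, ‖∑ z ∈ Z with cl z = t, c z * ph φ z x‖) ^ 2 :=
          pow_le_pow_left₀ (norm_nonneg _) (norm_sum_le _ _) 2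
      _ ≤ _ := sq_sum_le_card_mul_sum_sq
  have h2 : ∫ x in a..b, ‖∑ z ∈ Z, c z * ph φ z x‖ ^ 2 ≤
      ∫ x in a..b, ∑ t ∈ T, (T.card : ℝ) * ‖∑ z ∈ Z with cl z = t, c z * ph φ z x‖ ^ 2 := by
    refine intervalIntegral.integral_mono_on hab ?_ ?_ (fun x _ => hpt x)
    · apply Continuous.intervalIntegrable
      exact ((continuous_finsetSum _ (fun z _ => continuous_const.mul (hc z))).norm).pow 2
    · apply Continuous.intervalIntegrable
      exact continuous_finsetSum _ (fun t _ => continuous_const.mul (hcont t))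
  refine h2.trans ?_
  rw [intervalIntegral.integral_finsetSum]
  swap
  · intro t _
    apply Continuous.intervalIntegrable
    exact continuous_const.mul (hcont t)
  have h3 : ∀ t ∈ T, ∫ x in a..b, (T.card : ℝ) * ‖∑ z ∈ Z with cl z = t, c z * ph φ z x‖ ^ 2
      ≤ (T.card : ℝ) * (R * ∑ z ∈ Z with cl z = t, ‖c z‖ ^ 2) := by
    intro t _
    rw [intervalIntegral.integral_const_mul]
    refine mul_le_mul_of_nonneg_left ?_ (Nat.cast_nonneg _)
    refine clj_sch φ hab _ c R hφ fun z hz => ?_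
    have hz2 := Finset.mem_filter.mp hz
    have := hrow z hz2.1
    rw [hz2.2] at this
    exact this
  refine (Finset.sum_le_sum h3).trans (le_of_eq ?_)
  rw [← Finset.mul_sum, ← Finset.mul_sum,
    Finset.sum_fiberwise_of_maps_to (fun z hz => Finset.mem_image_of_mem _ hz), mul_assoc]

end Pool.Agent.H79.QN
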